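import Mathlib
import Pool.Agent.Helpers.PercDefs
import Pool.Agent.Helpers.PercAvg

open MeasureTheory

namespace Pool.Agent.Results.MP_cc1c4a_pr.FiniteEnergy

/-- For every `d ≥ 2` there is an automorphism-invariant bond percolation on `ℤ^d` with finite
energy which percolates almost surely and whose critical value of thinning is `1`. -/
theorem result : ∀ d : ℕ, 2 ≤ d → ∃ μ : Measure (FinEnPerc.Config d), IsProbabilityMeasure μ ∧
    FinEnPerc.Invariant μ ∧ FinEnPerc.FiniteEnergy μ ∧
    (∀ᵐ X ∂μ, FinEnPerc.HasInfiniteCluster X) ∧ FinEnPerc.pc μ = 1 := by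
  intro d hd
  have : NeZero d := ⟨by omega⟩
  exact ⟨FinEnPerc.mu d, inferInstance, FinEnPerc.invariant_mu, FinEnPerc.finiteEnergy_mu,
    FinEnPerc.percolates_mu hd, FinEnPerc.pc_mu hd⟩

end Pool.Agent.Results.MP_cc1c4a_pr.FiniteEnergy
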